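import Mathlib

set_option autoImplicit false

/-! Finite Ramsey theorem for finite sets of integers, several uniformities and colourings at once, and
supersaturation (helper780). -/

open Finset

namespace Pool.Agent.TH780.PS

/-- all the `s`-subsets of `T` have the same colour -/
def Hom (χ : Finset ℤ → Prop) (s : ℕ) (T : Finset ℤ) : Prop :=
  (∀ S ⊆ T, S.card = s → χ S) ∨ (∀ S ⊆ T, S.card = s → ¬ χ S)

theorem Hom.mono {χ : Finset ℤ → Prop} {s : ℕ} {T T' : Finset ℤ} (h : Hom χ s T) (hT : T' ⊆ T) :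
    Hom χ s T' := by
  rcases h with h | h
  · exact Or.inl fun S hS => h S (hS.trans hT)
  · exact Or.inr fun S hS => h S (hS.trans hT)

theorem ram2 (s : ℕ) : ∀ n : ℕ, ∀ a b : ℕ, a + b = n → ∃ R : ℕ, ∀ (χ : Finset ℤ → Prop) (A : Finset ℤ),
    R ≤ A.card → (∃ T ⊆ A, T.card = a ∧ ∀ S ⊆ T, S.card = s → χ S) ∨
      (∃ T ⊆ A, T.card = b ∧ ∀ S ⊆ T, S.card = s → ¬ χ S) := by
  classical
  induction s with
  | zero =>
    intro n a b _
    refine ⟨max a b, fun χ A hA => ?_⟩
    by_cases h : χ ∅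
    · obtain ⟨T, hT, hTc⟩ := exists_subset_card_eq ((le_max_left a b).trans hA)
      refine Or.inl ⟨T, hT, hTc, fun S _ hS => ?_⟩
      rw [card_eq_zero] at hS
      rwa [hS]
    · obtain ⟨T, hT, hTc⟩ := exists_subset_card_eq ((le_max_right a b).trans hA)
      refine Or.inr ⟨T, hT, hTc, fun S _ hS => ?_⟩
      rw [card_eq_zero] at hS
      rwa [hS]
  | succ s ih =>
    intro n
    induction n with
    | zero =>
      intro a b hab
      obtain ⟨rfl, rfl⟩ : a = 0 ∧ b = 0 := by omega
      refine ⟨0, fun χ A _ => Or.inl ⟨∅, empty_subset _, rfl, fun S hS hSc => ?_⟩⟩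
      rw [subset_empty] at hS
      rw [hS, card_empty] at hSc
      omega
    | succ n ihn =>
      intro a b hab
      rcases Nat.eq_zero_or_pos a with rfl | ha
      · refine ⟨0, fun χ A _ => Or.inl ⟨∅, empty_subset _, rfl, fun S hS hSc => ?_⟩⟩
        rw [subset_empty] at hS
        rw [hS, card_empty] at hSc
        omega
      rcases Nat.eq_zero_or_pos b with rfl | hb
      · refine ⟨0, fun χ A _ => Or.inr ⟨∅, empty_subset _, rfl, fun S hS hSc => ?_⟩⟩
        rw [subset_empty] at hS
        rw [hS, card_empty] at hSc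
        omega
      obtain ⟨R1, hR1⟩ := ihn (a - 1) b (by omega)
      obtain ⟨R2, hR2⟩ := ihn a (b - 1) (by omega)
      set N := max R1 R2 with hN
      obtain ⟨R0, hR0⟩ := ih (N + N) N N rfl
      refine ⟨R0 + 1, fun χ A hA => ?_⟩
      obtain ⟨x, hx⟩ : A.Nonempty := card_pos.1 (by omega)
      have hA' : R0 ≤ (A.erase x).card := by
        rw [card_erase_of_mem hx]
        omega
      have key : ∀ (T : Finset ℤ) (c : ℕ) (Q : Finset ℤ → Prop), T ⊆ A.erase x → T.card = c →
          (∀ S ⊆ T, S.card = s → Q (insert x S)) → (∀ S ⊆ T, S.card = s + 1 → Q S) →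
          insert x T ⊆ A ∧ (insert x T).card = c + 1 ∧ ∀ S ⊆ insert x T, S.card = s + 1 → Q S := by
        intro T c Q hT hTc h1 h2
        have hxT : x ∉ T := fun h => by
          have := hT h
          simp at this
        refine ⟨insert_subset hx (hT.trans (erase_subset _ _)), by rw [card_insert_of_notMem hxT, hTc], ?_⟩
        intro S hS hSc
        by_cases hxS : x ∈ S
        · have h3 : S.erase x ⊆ T := by
            intro y hy
            rw [mem_erase] at hy
            have := hS hy.2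
            rw [mem_insert] at this
            exact this.resolve_left hy.1
          have h4 := h1 _ h3 (by rw [card_erase_of_mem hxS, hSc]; rfl)
          rwa [insert_erase hxS] at h4
        · refine h2 S ?_ hSc
          intro y hy
          have := hS hy
          rw [mem_insert] at this
          refine this.resolve_left ?_
          rintro rfl
          exact hxS hy
      rcases hR0 (fun S => χ (insert x S)) (A.erase x) hA' with ⟨B, hB, hBc, hBh⟩ | ⟨B, hB, hBc, hBh⟩
      · rcases hR1 χ B (by rw [hBc]; exact le_max_left _ _) with ⟨T, hT, hTc, hTh⟩ | ⟨T, hT, hTc, hTh⟩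
        · obtain ⟨k1, k2, k3⟩ := key T (a - 1) χ (hT.trans hB) hTc
            (fun S hS hSc => hBh S (hS.trans hT) hSc) hTh
          exact Or.inl ⟨_, k1, by omega, k3⟩
        · exact Or.inr ⟨T, hT.trans (hB.trans (erase_subset _ _)), hTc, hTh⟩
      · rcases hR2 χ B (by rw [hBc]; exact le_max_right _ _) with ⟨T, hT, hTc, hTh⟩ | ⟨T, hT, hTc, hTh⟩
        · exact Or.inl ⟨T, hT.trans (hB.trans (erase_subset _ _)), hTc, hTh⟩
        · obtain ⟨k1, k2, k3⟩ := key T (b - 1) (fun S => ¬ χ S) (hT.trans hB) hTc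
            (fun S hS hSc => hBh S (hS.trans hT) hSc) hTh
          exact Or.inr ⟨_, k1, by omega, k3⟩

theorem ram1 (s t : ℕ) : ∃ R : ℕ, ∀ (χ : Finset ℤ → Prop) (A : Finset ℤ),
    R ≤ A.card → ∃ T ⊆ A, T.card = t ∧ Hom χ s T := by
  obtain ⟨R, hR⟩ := ram2 s (t + t) t t rfl
  refine ⟨R, fun χ A hA => ?_⟩
  rcases hR χ A hA with ⟨T, h1, h2, h3⟩ | ⟨T, h1, h2, h3⟩
  · exact ⟨T, h1, h2, Or.inl h3⟩
  · exact ⟨T, h1, h2, Or.inr h3⟩

theorem ramS (K : ℕ) : ∀ t : ℕ, ∃ R : ℕ, ∀ (χ : Finset ℤ → Prop) (A : Finset ℤ),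
    R ≤ A.card → ∃ T ⊆ A, T.card = t ∧ ∀ s < K, Hom χ s T := by
  induction K with
  | zero =>
    intro t
    refine ⟨t, fun χ A hA => ?_⟩
    obtain ⟨T, hT, hTc⟩ := exists_subset_card_eq hA
    exact ⟨T, hT, hTc, fun s hs => by omega⟩
  | succ K ih =>
    intro t
    obtain ⟨R1, hR1⟩ := ram1 K t
    obtain ⟨R, hR⟩ := ih R1
    refine ⟨R, fun χ A hA => ?_⟩
    obtain ⟨B, hB, hBc, hBh⟩ := hR χ A hA
    obtain ⟨T, hT, hTc, hTh⟩ := hR1 χ B hBc.ge
    refine ⟨T, hT.trans hB, hTc, fun s hs => ?_⟩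
    rcases Nat.lt_succ_iff_lt_or_eq.1 hs with h | rfl
    · exact (hBh s h).mono hT
    · exact hTh

theorem raml (l K : ℕ) : ∀ t : ℕ, ∃ R : ℕ, ∀ (χ : Fin l → Finset ℤ → Prop) (A : Finset ℤ),
    R ≤ A.card → ∃ T ⊆ A, T.card = t ∧ ∀ j, ∀ s < K, Hom (χ j) s T := by
  induction l with
  | zero =>
    intro t
    refine ⟨t, fun χ A hA => ?_⟩
    obtain ⟨T, hT, hTc⟩ := exists_subset_card_eq hA
    exact ⟨T, hT, hTc, fun j => j.elim0⟩
  | succ l ih =>
    intro t
    obtain ⟨R1, hR1⟩ := ramS K t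
    obtain ⟨R, hR⟩ := ih R1
    refine ⟨R, fun χ A hA => ?_⟩
    obtain ⟨B, hB, hBc, hBh⟩ := hR (fun j => χ j.castSucc) A hA
    obtain ⟨T, hT, hTc, hTh⟩ := hR1 (χ (Fin.last l)) B hBc.ge
    refine ⟨T, hT.trans hB, hTc, fun j => ?_⟩
    induction j using Fin.lastCases with
    | last => exact hTh
    | cast j => exact fun s hs => (hBh j s hs).mono hT

/-- supersaturation -/
theorem supersat {R t : ℕ} (htR : t ≤ R) (A : Finset ℤ) (hA : R ≤ A.card) (P : Finset ℤ → Prop)
    [DecidablePred P] (h : ∀ B ⊆ A, B.card = R → ∃ T ⊆ B, T.card = t ∧ P T) :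
    A.card.choose t ≤ R.choose t * ((A.powersetCard t).filter P).card := by
  classical
  set G := (A.powersetCard t).filter P with hG
  have h1 : (A.powersetCard R).card ≤ ∑ T ∈ G, ((A.powersetCard R).filter (fun B => T ⊆ B)).card := by
    rw [← card_sigma]
    have : (A.powersetCard R).card ≤ ((G.sigma fun T => (A.powersetCard R).filter (fun B => T ⊆ B)).image
        (fun x => x.2)).card := by
      apply card_le_card
      intro B hB
      rw [mem_powersetCard] at hB
      obtain ⟨T, hT, hTc, hTP⟩ := h B hB.1 hB.2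
      rw [mem_image]
      refine ⟨⟨T, B⟩, ?_, rfl⟩
      rw [mem_sigma]
      refine ⟨mem_filter.2 ⟨mem_powersetCard.2 ⟨hT.trans hB.1, hTc⟩, hTP⟩,
        mem_filter.2 ⟨mem_powersetCard.2 hB, hT⟩⟩
    exact this.trans card_image_le
  have h2 : ∀ T ∈ G, ((A.powersetCard R).filter (fun B => T ⊆ B)).card ≤ (A.card - t).choose (R - t) := by
    intro T hT
    rw [hG, mem_filter, mem_powersetCard] at hT
    have : ((A.powersetCard R).filter (fun B => T ⊆ B)).card ≤ ((A \ T).powersetCard (R - t)).card := by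
      apply card_le_card_of_injOn (fun B => B \ T)
      · intro B hB
        simp only [coe_filter, mem_powersetCard, Set.mem_ofPred_eq] at hB
        simp only [mem_coe, mem_powersetCard]
        exact ⟨sdiff_subset_sdiff hB.1.1 subset_rfl, by rw [card_sdiff_of_subset hB.2, hB.1.2, hT.1.2]⟩
      · intro B hB B' hB' hBB
        simp only [coe_filter, mem_powersetCard, Set.mem_ofPred_eq] at hB hB'
        simp only at hBB
        rw [← sdiff_union_of_subset hB.2, hBB, sdiff_union_of_subset hB'.2]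
    rw [card_powersetCard, card_sdiff_of_subset hT.1.1, hT.1.2] at this
    exact this
  have h3 : A.card.choose R ≤ G.card * (A.card - t).choose (R - t) := by
    rw [card_powersetCard] at h1
    refine h1.trans ((sum_le_sum h2).trans ?_)
    rw [sum_const, smul_eq_mul]
  have h4 : A.card.choose R * R.choose t = A.card.choose t * (A.card - t).choose (R - t) :=
    Nat.choose_mul htR
  have h5 : 0 < (A.card - t).choose (R - t) := Nat.choose_pos (by omega)
  have h6 : A.card.choose t * (A.card - t).choose (R - t) ≤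
      (R.choose t * G.card) * (A.card - t).choose (R - t) := by
    rw [← h4]
    calc A.card.choose R * R.choose t ≤ (G.card * (A.card - t).choose (R - t)) * R.choose t :=
          Nat.mul_le_mul_right _ h3
      _ = _ := by ring
  exact Nat.le_of_mul_le_mul_right h6 h5

end Pool.Agent.TH780.PS
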