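import Pool.Agent.W126.IsoHer
import Pool.Agent.TH780.PS.Ramsey

set_option autoImplicit false

/-! A positive proportion of the `t`-subsets of every large finite set of integers consists of sets all of whose
`s`-subsets are exact patterns of primes isolated by record gaps (helper780). -/

open Finset Filter

namespace Pool.Agent.TH780.PS

open Pool.Agent.H256R2.SC (ff)
open Pool.Agent.W126.RecIso (core)
open Pool.Agent.W126.IsoHer (Iso shift)

/-- every set of `K` integers in one class modulo `q` contains an isolated pattern -/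
theorem find (m : ℕ) : ∃ K : ℕ, ∃ c : ℝ, 0 < c ∧ ∀ q : ℕ, Squarefree q → ∀ r : ℕ, r.Coprime q →
    ∀ T : Finset ℤ, T.card = K → (∀ a ∈ T, ∀ b ∈ T, (q : ℤ) ∣ a - b) →
    ∃ S ⊆ T, m ≤ S.card ∧ Iso c q r S := by
  classical
  obtain ⟨K, c, hc, hcore⟩ := core m
  refine ⟨K, c / 4, by positivity, fun q hq r hr T hT hTq => ?_⟩
  obtain ⟨v, hv⟩ : ∃ v : ℤ, ∀ a ∈ T, (q : ℤ) ∣ a - v := by
    rcases T.eq_empty_or_nonempty with rfl | ⟨v, hv⟩
    · exact ⟨0, by simp⟩
    · exact ⟨v, fun a ha => hTq a ha v hv⟩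
  set e := T.orderEmbOfFin hT with he
  have heT : ∀ i, e i ∈ T := fun i => Finset.orderEmbOfFin_mem _ hT i
  obtain ⟨J, hJm, hJ⟩ := hcore q hq r hr (fun i => e i - v) (fun a b hab => by
      have := e.strictMono hab
      simp only
      linarith) (fun i => hv _ (heT i))
  refine ⟨J.image (fun i => e i), ?_, ?_, ?_⟩
  · intro y hy
    obtain ⟨i, _, rfl⟩ := mem_image.1 hy
    exact heT i
  · rw [card_image_of_injective _ e.injective]
    exact hJm
  · refine shift c hc q r v (J.image (fun i => e i - v)) ?_ ?_ _ ?_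
    · intro y hy
      obtain ⟨i, _, rfl⟩ := mem_image.1 hy
      exact hv _ (heT i)
    · refine hJ.mono fun n hn => ⟨hn.1, fun y hy => ?_⟩
      rw [hn.2 y hy, mem_image]
    · intro y
      rw [mem_image, mem_image]
      constructor
      · rintro ⟨i, hi, rfl⟩
        exact ⟨i, hi, rfl⟩
      · rintro ⟨i, hi, h⟩
        exact ⟨i, hi, by linarith⟩

theorem main (m : ℕ) : ∃ (K : ℕ) (c : ℝ), 0 < c ∧ ∀ t l : ℕ, K ≤ t → ∃ (R : ℕ) (δ : ℝ), 0 < δ ∧
    ∀ q r : Fin l → ℕ, (∀ j, Squarefree (q j)) → (∀ j, (r j).Coprime (q j)) →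
    ∀ A : Finset ℤ, (∀ j, ∀ a ∈ A, ∀ b ∈ A, (q j : ℤ) ∣ a - b) → R ≤ A.card →
      δ * (A.card.choose t : ℝ) ≤ ({T : Finset ℤ | T ⊆ A ∧ T.card = t ∧
        ∀ j, ∃ s, m ≤ s ∧ s ≤ K ∧ ∀ S ⊆ T, S.card = s → Iso c (q j) (r j) S}.ncard : ℝ) := by
  classical
  obtain ⟨K, c, hc, hfind⟩ := find m
  refine ⟨K, c, hc, fun t l hKt => ?_⟩
  obtain ⟨R0, hR0⟩ := raml l (K + 1) t
  set R := max R0 t with hR
  have hpos : 0 < R.choose t := Nat.choose_pos (le_max_right _ _)
  refine ⟨R, 1 / (R.choose t : ℝ), by positivity, fun q r hq hr A hA hAc => ?_⟩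
  have h1 := supersat (R := R) (t := t) (le_max_right _ _) A hAc
    (fun T => ∀ j, ∃ s, m ≤ s ∧ s ≤ K ∧ ∀ S ⊆ T, S.card = s → Iso c (q j) (r j) S) (by
      intro B hB hBc
      obtain ⟨T, hT, hTc, hTh⟩ := hR0 (fun j => Iso c (q j) (r j)) B (by rw [hBc]; exact le_max_left _ _)
      refine ⟨T, hT, hTc, fun j => ?_⟩
      obtain ⟨T', hT', hTc'⟩ := exists_subset_card_eq (hKt.trans hTc.ge)
      obtain ⟨S, hS, hSm, hSi⟩ := hfind (q j) (hq j) (r j) (hr j) T' hTc' (fun a ha b hb =>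
        hA j a (hB (hT (hT' ha))) b (hB (hT (hT' hb))))
      have hSK : S.card ≤ K := by
        rw [← hTc']
        exact card_le_card hS
      refine ⟨S.card, hSm, hSK, ?_⟩
      rcases hTh j S.card (by omega) with h | h
      · exact h
      · exact absurd hSi (h S (hS.trans hT') rfl))
  have h2 : ((A.powersetCard t).filter (fun T => ∀ j, ∃ s, m ≤ s ∧ s ≤ K ∧
      ∀ S ⊆ T, S.card = s → Iso c (q j) (r j) S)).card = {T : Finset ℤ | T ⊆ A ∧ T.card = t ∧
        ∀ j, ∃ s, m ≤ s ∧ s ≤ K ∧ ∀ S ⊆ T, S.card = s → Iso c (q j) (r j) S}.ncard := by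
    rw [← Set.ncard_coe_finset]
    congr 1
    ext T
    simp only [coe_filter, mem_powersetCard, Set.mem_ofPred_eq, and_assoc]
  rw [← h2, div_mul_eq_mul_div, one_mul, div_le_iff₀ (by exact_mod_cast hpos), mul_comm]
  exact_mod_cast h1

end Pool.Agent.TH780.PS
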